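import Pool.Agent.Helper40.MR.Defs

/-!
# LB: the bound for `L (1 + 1 / log N + i u)` from van der Corput's method
-/

set_option autoImplicit false

open Finset MeasureTheory
open scoped BigOperators Nat

namespace Pool.Agent.Helper40.MR

/-- Abel summation. -/
theorem lb_abel (w : ℕ → ℝ) (z : ℕ → ℂ) (a b : ℕ) (B : ℝ) (hab : a ≤ b)
    (hw : ∀ n, a ≤ n → n < b → w (n + 1) ≤ w n) (hw0 : 0 ≤ w b)
    (hB : ∀ n, a ≤ n → n ≤ b → ‖∑ m ∈ Ioc a n, z m‖ ≤ B) :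
    ‖∑ m ∈ Ioc a b, (w m : ℂ) * z m‖ ≤ w a * B := by
  have key : ∀ n, a ≤ n → n ≤ b →
      ‖∑ m ∈ Ioc a n, (w m : ℂ) * z m - (w n : ℂ) * ∑ m ∈ Ioc a n, z m‖ ≤ (w a - w n) * B := by
    intro n hn
    induction n, hn using Nat.le_induction with
    | base => intro _; simp
    | succ n hn ih =>
      intro hnb
      have h1 := ih (by omega)
      have h2 := hB n hn (by omega)
      have h3 := hw n hn (by omega)
      have e : ∑ m ∈ Ioc a (n + 1), (w m : ℂ) * z m - (w (n + 1) : ℂ) * ∑ m ∈ Ioc a (n + 1), z m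
          = (∑ m ∈ Ioc a n, (w m : ℂ) * z m - (w n : ℂ) * ∑ m ∈ Ioc a n, z m)
            + ((w n - w (n + 1) : ℝ) : ℂ) * ∑ m ∈ Ioc a n, z m := by
        rw [Finset.sum_Ioc_succ_top hn, Finset.sum_Ioc_succ_top hn]
        push_cast
        ring
      rw [e]
      refine (norm_add_le _ _).trans ?_
      rw [norm_mul, Complex.norm_real, Real.norm_eq_abs, abs_of_nonneg (sub_nonneg.2 h3)]
      have h4 : (w n - w (n + 1)) * ‖∑ m ∈ Ioc a n, z m‖ ≤ (w n - w (n + 1)) * B :=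
        mul_le_mul_of_nonneg_left h2 (sub_nonneg.2 h3)
      linarith
  have h5 := key b hab le_rfl
  have h6 := hB b hab le_rfl
  have e : ∑ m ∈ Ioc a b, (w m : ℂ) * z m
      = (∑ m ∈ Ioc a b, (w m : ℂ) * z m - (w b : ℂ) * ∑ m ∈ Ioc a b, z m)
        + (w b : ℂ) * ∑ m ∈ Ioc a b, z m := by ring
  rw [e]
  refine (norm_add_le _ _).trans ?_
  rw [norm_mul, Complex.norm_real, Real.norm_eq_abs, abs_of_nonneg hw0]
  have h7 : w b * ‖∑ m ∈ Ioc a b, z m‖ ≤ w b * B := mul_le_mul_of_nonneg_left h6 hw0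
  linarith

/-- `x ^ (-s)` for `s = 1 + σ + i u` -/
theorem lb_cpow (x σ u : ℝ) (hx : 0 < x) :
    (x : ℂ) ^ (-(((1 + σ : ℝ) : ℂ) + (u : ℂ) * Complex.I)) = ((x ^ (-(1 + σ)) : ℝ) : ℂ) * xiu x (-u) := by
  have hx0 : (x : ℂ) ≠ 0 := Complex.ofReal_ne_zero.2 hx.ne'
  rw [Complex.cpow_def_of_ne_zero hx0, Real.rpow_def_of_pos hx, xiu, ← Complex.ofReal_log hx.le,
    Complex.ofReal_exp, ← Complex.exp_add]
  congr 1
  push_cast
  ring

theorem lb_norm (x σ u : ℝ) (hx : 0 < x) :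
    ‖(x : ℂ) ^ (-(((1 + σ : ℝ) : ℂ) + (u : ℂ) * Complex.I))‖ = x ^ (-(1 + σ)) := by
  rw [Complex.norm_cpow_eq_rpow_re_of_pos hx]
  congr 1
  simp

/-- one block -/
theorem lb_block {A c C : ℝ} (hC : 0 < C)
    (H : ∀ (M β u : ℝ) (a b : ℕ), 1 ≤ M → 0 ≤ β → β ≤ 1 → M ^ (1 / 2 : ℝ) ≤ |u| → |u| ≤ M ^ A →
      M ≤ a → a ≤ b → (b : ℝ) ≤ 2 * M → ‖∑ m ∈ Ioc a b, xiu (m + β) u‖ ≤ C * M ^ (1 - c))
    (K : ℕ) (hK : 1 ≤ K) (β σ u : ℝ) (hβ : 0 ≤ β) (hβ1 : β ≤ 1) (hσ : 0 < σ)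
    (hu1 : ((K : ℝ)) ^ (1 / 2 : ℝ) ≤ |u|) (hu2 : |u| ≤ (K : ℝ) ^ A) :
    ‖∑ m ∈ Ioc K (2 * K), (((m : ℝ) + β : ℝ) : ℂ) ^ (-(((1 + σ : ℝ) : ℂ) + (u : ℂ) * Complex.I))‖
      ≤ C * (K : ℝ) ^ (-c) := by
  have hK0 : (0 : ℝ) < K := by exact_mod_cast hK
  have hK1 : (1 : ℝ) ≤ K := by exact_mod_cast hK
  have h1 : ∑ m ∈ Ioc K (2 * K), (((m : ℝ) + β : ℝ) : ℂ) ^ (-(((1 + σ : ℝ) : ℂ) + (u : ℂ) * Complex.I))
      = ∑ m ∈ Ioc K (2 * K), ((((m : ℝ) + β) ^ (-(1 + σ)) : ℝ) : ℂ) * xiu (m + β) (-u) := by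
    refine Finset.sum_congr rfl fun m hm => ?_
    rw [Finset.mem_Ioc] at hm
    have : (0 : ℝ) < m := by
      have : 0 < m := by omega
      exact_mod_cast this
    exact lb_cpow _ _ _ (by linarith)
  rw [h1]
  have h2 := lb_abel (fun m => ((m : ℝ) + β) ^ (-(1 + σ))) (fun m => xiu (m + β) (-u)) K (2 * K)
    (C * (K : ℝ) ^ (1 - c)) (by omega) ?_ (by positivity) ?_
  · refine h2.trans ?_
    have h3 : ((K : ℝ) + β) ^ (-(1 + σ)) ≤ (K : ℝ) ^ (-1 : ℝ) := by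
      calc ((K : ℝ) + β) ^ (-(1 + σ)) ≤ (K : ℝ) ^ (-(1 + σ)) :=
            Real.rpow_le_rpow_of_nonpos hK0 (by linarith) (by linarith)
        _ ≤ (K : ℝ) ^ (-1 : ℝ) := Real.rpow_le_rpow_of_exponent_le hK1 (by linarith)
    calc ((K : ℝ) + β) ^ (-(1 + σ)) * (C * (K : ℝ) ^ (1 - c))
        ≤ (K : ℝ) ^ (-1 : ℝ) * (C * (K : ℝ) ^ (1 - c)) :=
          mul_le_mul_of_nonneg_right h3 (by positivity)
      _ = C * ((K : ℝ) ^ (-1 : ℝ) * (K : ℝ) ^ (1 - c)) := by ring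
      _ = C * (K : ℝ) ^ (-c) := by
          rw [← Real.rpow_add hK0]
          congr 2
          ring
  · intro n hn _
    have hn0 : (0 : ℝ) < n := by
      have : 0 < n := by omega
      exact_mod_cast this
    refine Real.rpow_le_rpow_of_nonpos (by linarith) ?_ (by linarith)
    push_cast
    linarith
  · intro n hn hn2
    refine H K β (-u) K n hK1 hβ hβ1 (by rwa [abs_neg]) (by rwa [abs_neg]) le_rfl hn ?_
    exact_mod_cast hn2

/-- the dyadic blocks together -/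
theorem lb_dyadic {A c C : ℝ} (hc : 0 < c) (hC : 0 < C)
    (H : ∀ (M β u : ℝ) (a b : ℕ), 1 ≤ M → 0 ≤ β → β ≤ 1 → M ^ (1 / 2 : ℝ) ≤ |u| → |u| ≤ M ^ A →
      M ≤ a → a ≤ b → (b : ℝ) ≤ 2 * M → ‖∑ m ∈ Ioc a b, xiu (m + β) u‖ ≤ C * M ^ (1 - c))
    (K : ℕ) (hK : 1 ≤ K) (β σ u : ℝ) (hβ : 0 ≤ β) (hβ1 : β ≤ 1) (hσ : 0 < σ) (hA : 0 ≤ A)
    (hu2 : |u| ≤ (K : ℝ) ^ A) (I : ℕ) (hI : ∀ i < I, ((2 ^ i * K : ℕ) : ℝ) ≤ u ^ 2) :
    ‖∑ m ∈ Ioc K (2 ^ I * K), (((m : ℝ) + β : ℝ) : ℂ) ^ (-(((1 + σ : ℝ) : ℂ) + (u : ℂ) * Complex.I))‖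
      ≤ C / (1 - (2 : ℝ) ^ (-c)) := by
  have hr0 : (0 : ℝ) < (2 : ℝ) ^ (-c) := by positivity
  have hr1 : (2 : ℝ) ^ (-c) < 1 := Real.rpow_lt_one_of_one_lt_of_neg (by norm_num) (by linarith)
  have hK1 : (1 : ℝ) ≤ K := by exact_mod_cast hK
  have key : ∀ J ≤ I,
      ‖∑ m ∈ Ioc K (2 ^ J * K), (((m : ℝ) + β : ℝ) : ℂ) ^ (-(((1 + σ : ℝ) : ℂ) + (u : ℂ) * Complex.I))‖
        ≤ ∑ i ∈ range J, C * ((2 : ℝ) ^ (-c)) ^ i := by
    intro J
    induction J with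
    | zero => intro _; simp
    | succ J ih =>
      intro hJ
      have h1 := ih (by omega)
      have hle1 : K ≤ 2 ^ J * K := Nat.le_mul_of_pos_left K (by positivity)
      have hle2 : 2 ^ J * K ≤ 2 ^ (J + 1) * K := by
        rw [pow_succ]
        nlinarith [Nat.zero_le (2 ^ J * K)]
      have e : Ioc K (2 ^ (J + 1) * K) = Ioc K (2 ^ J * K) ∪ Ioc (2 ^ J * K) (2 ^ (J + 1) * K) :=
        (Finset.Ioc_union_Ioc_eq_Ioc hle1 hle2).symm
      rw [e, Finset.sum_union (Finset.Ioc_disjoint_Ioc_of_le le_rfl), Finset.sum_range_succ]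
      refine (norm_add_le _ _).trans (add_le_add h1 ?_)
      have hM1 : 1 ≤ 2 ^ J * K := hK.trans hle1
      have hMR : (1 : ℝ) ≤ ((2 ^ J * K : ℕ) : ℝ) := by exact_mod_cast hM1
      have h2 := lb_block hC H (2 ^ J * K) hM1 β σ u hβ hβ1 hσ ?_ ?_
      · have e2 : 2 ^ (J + 1) * K = 2 * (2 ^ J * K) := by ring
        rw [e2]
        refine h2.trans ?_
        refine mul_le_mul_of_nonneg_left ?_ hC.le
        calc ((2 ^ J * K : ℕ) : ℝ) ^ (-c) ≤ ((2 : ℝ) ^ J) ^ (-c) := by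
              refine Real.rpow_le_rpow_of_nonpos (by positivity) ?_ (by linarith)
              push_cast
              exact le_mul_of_one_le_right (by positivity) hK1
          _ = ((2 : ℝ) ^ (-c)) ^ J := by
              rw [← Real.rpow_natCast, ← Real.rpow_mul (by norm_num), mul_comm, Real.rpow_mul (by norm_num),
                Real.rpow_natCast]
      · rw [← Real.sqrt_eq_rpow]
        refine Real.sqrt_le_iff.2 ⟨abs_nonneg _, ?_⟩
        rw [sq_abs]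
        exact hI J (by omega)
      · refine hu2.trans (Real.rpow_le_rpow (by positivity) ?_ hA)
        exact_mod_cast hle1
  refine (key I le_rfl).trans ?_
  rw [← Finset.mul_sum, div_eq_mul_inv]
  refine mul_le_mul_of_nonneg_left ?_ hC.le
  rw [← tsum_geometric_of_lt_one hr0.le hr1]
  exact (summable_geometric_of_lt_one hr0.le hr1).sum_le_tsum _ fun i _ => by positivity

/-- the Lipschitz estimate for `x ^ (-s)` -/
theorem lb_lip (s : ℂ) (hs : 1 ≤ s.re) (x0 x y : ℝ) (h0 : 1 ≤ x0) (hx : x0 ≤ x) (hy : x0 ≤ y) :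
    ‖(y : ℂ) ^ (-s) - (x : ℂ) ^ (-s)‖ ≤ ‖s‖ * x0 ^ (-2 : ℝ) * |y - x| := by
  have hs0 : s ≠ 0 := by
    rintro rfl
    simp at hs
    linarith
  have hder : ∀ t ∈ Set.Ici x0, HasDerivWithinAt (fun t : ℝ => (t : ℂ) ^ (-s)) (-s * (t : ℂ) ^ (-s - 1)) (Set.Ici x0) t := by
    intro t ht
    have ht0 : t ≠ 0 := by
      have : x0 ≤ t := ht
      linarith
    exact (hasDerivAt_ofReal_cpow_const ht0 (neg_ne_zero.2 hs0)).hasDerivWithinAt
  have hb : ∀ t ∈ Set.Ici x0, ‖-s * (t : ℂ) ^ (-s - 1)‖ ≤ ‖s‖ * x0 ^ (-2 : ℝ) := by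
    intro t ht
    have ht1 : x0 ≤ t := ht
    have ht0 : 0 < t := by linarith
    rw [norm_mul, norm_neg, Complex.norm_cpow_eq_rpow_re_of_pos ht0]
    refine mul_le_mul_of_nonneg_left ?_ (norm_nonneg _)
    have e : (-s - 1).re = -(s.re + 1) := by
      simp
      ring
    rw [e]
    calc t ^ (-(s.re + 1)) ≤ x0 ^ (-(s.re + 1)) :=
          Real.rpow_le_rpow_of_nonpos (by linarith) ht1 (by linarith)
      _ ≤ x0 ^ (-2 : ℝ) := Real.rpow_le_rpow_of_exponent_le h0 (by linarith)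
  have h := Convex.norm_image_sub_le_of_norm_hasDerivWithin_le hder hb (convex_Ici x0) hx hy
  simpa [Real.norm_eq_abs] using h

/-- one term compared with the integral -/
theorem lb_term (s : ℂ) (hs : 1 < s.re) (β : ℝ) (hβ : 0 ≤ β) (hβ1 : β ≤ 1) (n : ℕ) (hn : 1 ≤ n) :
    ‖(((((n + 1 : ℕ) : ℝ) + β : ℝ)) : ℂ) ^ (-s) - ((((n + 1 : ℕ) : ℝ) : ℂ) ^ (1 - s) / (1 - s) - ((n : ℝ) : ℂ) ^ (1 - s) / (1 - s))‖
      ≤ 2 * ‖s‖ * (n : ℝ) ^ (-2 : ℝ) := by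
  have hn1 : (1 : ℝ) ≤ n := by exact_mod_cast hn
  have hs1 : (1 - s) ≠ 0 := by
    intro h
    have := congrArg Complex.re h
    simp at this
    linarith
  have hder : ∀ t ∈ Set.Icc (n : ℝ) (n + 1), HasDerivWithinAt
      (fun t : ℝ => (t : ℂ) * (((((n + 1 : ℕ) : ℝ) + β : ℝ)) : ℂ) ^ (-s) - (t : ℂ) ^ (1 - s) / (1 - s))
      ((((((n + 1 : ℕ) : ℝ) + β : ℝ)) : ℂ) ^ (-s) - (t : ℂ) ^ (-s)) (Set.Icc (n : ℝ) (n + 1)) t := by
    intro t ht
    have ht0 : t ≠ 0 := by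
      have := ht.1
      linarith
    have h1 := (hasDerivAt_ofReal_cpow_const (r := 1 - s) ht0 hs1).div_const (1 - s)
    have h2 : HasDerivAt (fun t : ℝ => (t : ℂ) * (((((n + 1 : ℕ) : ℝ) + β : ℝ)) : ℂ) ^ (-s))
        (1 * (((((n + 1 : ℕ) : ℝ) + β : ℝ)) : ℂ) ^ (-s)) t :=
      (Complex.ofRealCLM.hasDerivAt (x := t)).mul_const _
    have h3 := (h2.sub h1).hasDerivWithinAt (s := Set.Icc (n : ℝ) (n + 1))
    refine h3.congr_deriv ?_
    rw [one_mul, mul_div_cancel_left₀ _ hs1]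
    congr 2
    ring
  have hb : ∀ t ∈ Set.Icc (n : ℝ) (n + 1),
      ‖(((((n + 1 : ℕ) : ℝ) + β : ℝ)) : ℂ) ^ (-s) - (t : ℂ) ^ (-s)‖ ≤ 2 * ‖s‖ * (n : ℝ) ^ (-2 : ℝ) := by
    intro t ht
    refine (lb_lip s hs.le n t _ hn1 ht.1 (by push_cast; linarith)).trans ?_
    have h4 : |((n + 1 : ℕ) : ℝ) + β - t| ≤ 2 := by
      rw [abs_le]
      push_cast
      constructor <;> linarith [ht.1, ht.2]
    calc ‖s‖ * (n : ℝ) ^ (-2 : ℝ) * |((n + 1 : ℕ) : ℝ) + β - t| ≤ ‖s‖ * (n : ℝ) ^ (-2 : ℝ) * 2 :=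
          mul_le_mul_of_nonneg_left h4 (by positivity)
      _ = 2 * ‖s‖ * (n : ℝ) ^ (-2 : ℝ) := by ring
  have h := Convex.norm_image_sub_le_of_norm_hasDerivWithin_le hder hb (convex_Icc _ _)
    (x := (n : ℝ)) (y := ((n : ℝ) + 1)) ⟨le_rfl, by linarith⟩ ⟨by linarith, le_rfl⟩
  rw [add_sub_cancel_left, norm_one, mul_one] at h
  refine (le_of_eq ?_).trans h
  congr 1
  push_cast
  ring

/-- the tail compared with the integral -/
theorem lb_tail (s : ℂ) (hs : 1 < s.re) (β : ℝ) (hβ : 0 ≤ β) (hβ1 : β ≤ 1) (K : ℕ) (hK : 1 ≤ K) (n : ℕ)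
    (hn : K ≤ n) :
    ‖∑ m ∈ Ioc K n, (((m : ℝ) + β : ℝ) : ℂ) ^ (-s)
        - (((n : ℝ) : ℂ) ^ (1 - s) / (1 - s) - ((K : ℝ) : ℂ) ^ (1 - s) / (1 - s))‖
      ≤ 4 * ‖s‖ * (1 / K - 1 / n) := by
  induction n, hn using Nat.le_induction with
  | base => simp
  | succ n hn ih =>
    have hn1 : 1 ≤ n := hK.trans hn
    have hn0 : (1 : ℝ) ≤ n := by exact_mod_cast hn1
    have h1 := lb_term s hs β hβ hβ1 n hn1
    rw [Finset.sum_Ioc_succ_top hn]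
    have e : (∑ m ∈ Ioc K n, (((m : ℝ) + β : ℝ) : ℂ) ^ (-s)) + (((((n + 1 : ℕ) : ℝ) + β : ℝ)) : ℂ) ^ (-s)
        - ((((n + 1 : ℕ) : ℝ) : ℂ) ^ (1 - s) / (1 - s) - ((K : ℝ) : ℂ) ^ (1 - s) / (1 - s))
        = (∑ m ∈ Ioc K n, (((m : ℝ) + β : ℝ) : ℂ) ^ (-s)
            - (((n : ℝ) : ℂ) ^ (1 - s) / (1 - s) - ((K : ℝ) : ℂ) ^ (1 - s) / (1 - s)))
          + ((((((n + 1 : ℕ) : ℝ) + β : ℝ)) : ℂ) ^ (-s)
            - ((((n + 1 : ℕ) : ℝ) : ℂ) ^ (1 - s) / (1 - s) - ((n : ℝ) : ℂ) ^ (1 - s) / (1 - s))) := by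
      ring
    rw [e]
    refine (norm_add_le _ _).trans ((add_le_add ih h1).trans ?_)
    have h2 : (n : ℝ) ^ (-2 : ℝ) ≤ 2 * (1 / n - 1 / ((n + 1 : ℕ) : ℝ)) := by
      rw [show (-2 : ℝ) = -((2 : ℕ) : ℝ) by norm_num, Real.rpow_neg (by linarith), Real.rpow_natCast]
      push_cast
      have e2 : 2 * (1 / (n : ℝ) - 1 / ((n : ℝ) + 1)) = 2 / ((n : ℝ) * (n + 1)) := by
        field_simp
        ring
      rw [e2, inv_eq_one_div, div_le_div_iff₀ (by positivity) (by positivity)]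
      nlinarith
    have h3 : 2 * ‖s‖ * (n : ℝ) ^ (-2 : ℝ) ≤ 2 * ‖s‖ * (2 * (1 / n - 1 / ((n + 1 : ℕ) : ℝ))) :=
      mul_le_mul_of_nonneg_left h2 (by positivity)
    linarith

/-- regrouping by residue classes -/
theorem lb_split (f : ℕ → ℂ) (q K : ℕ) (n : ℕ) (hn : K ≤ n) :
    ∑ i ∈ range (q * (n + 1)), f i = ∑ i ∈ range (q * (K + 1)), f i
      + ∑ r ∈ range q, ∑ m ∈ Ioc K n, f (q * m + r) := by
  induction n, hn using Nat.le_induction with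
  | base => simp
  | succ n hn ih =>
    rw [show q * (n + 1 + 1) = q * (n + 1) + q by ring, Finset.sum_range_add, ih]
    simp_rw [Finset.sum_Ioc_succ_top hn, Finset.sum_add_distrib]
    ring

/-- the values of a nontrivial character sum to zero -/
theorem lb_char (q : ℕ) (hq : 1 ≤ q) (ψ : DirichletCharacter ℂ q) (hψ : ψ ≠ 1) :
    ∑ r ∈ range q, ψ (r : ZMod q) = 0 := by
  obtain ⟨q', rfl⟩ : ∃ q', q = q' + 1 := ⟨q - 1, by omega⟩
  rw [Finset.sum_range]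
  have h := MulChar.sum_eq_zero_of_ne_one hψ
  rw [← h]
  refine Finset.sum_congr rfl fun a _ => ?_
  congr 1
  exact Fin.cast_val_eq_self a

/-- the sum over the first terms -/
theorem lb_head (q : ℕ) (ψ : DirichletCharacter ℂ q) (s : ℂ) (hs : 1 ≤ s.re) (n : ℕ) (hn : 1 ≤ n) :
    ‖∑ i ∈ range n, LSeries.term (fun n => ψ n) s i‖ ≤ 1 + Real.log n := by
  have h1 : ‖∑ i ∈ range n, LSeries.term (fun n => ψ n) s i‖ ≤ ∑ i ∈ range n, ((i : ℝ))⁻¹ := by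
    refine norm_sum_le_of_le _ fun i _ => ?_
    rw [LSeries.norm_term_eq]
    split_ifs with h
    · simp [h]
    · have hi : (1 : ℝ) ≤ i := by
        have : 1 ≤ i := Nat.one_le_iff_ne_zero.2 h
        exact_mod_cast this
      rw [inv_eq_one_div]
      refine div_le_div₀ zero_le_one (ψ.norm_le_one _) (by linarith) ?_
      calc (i : ℝ) = (i : ℝ) ^ (1 : ℝ) := (Real.rpow_one _).symm
        _ ≤ (i : ℝ) ^ s.re := Real.rpow_le_rpow_of_exponent_le hi hs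
  refine h1.trans ?_
  obtain ⟨m, rfl⟩ : ∃ m, n = m + 1 := ⟨n - 1, by omega⟩
  rw [Finset.sum_range_succ']
  have h2 := harmonic_le_one_add_log m
  have h3 : ((harmonic m : ℚ) : ℝ) = ∑ i ∈ range m, (((i + 1 : ℕ) : ℝ))⁻¹ := by
    rw [harmonic]
    push_cast
    rfl
  rw [← h3]
  simp only [Nat.cast_zero, inv_zero, add_zero]
  refine h2.trans ?_
  rcases Nat.eq_zero_or_pos m with hm | hm
  · subst hm
    simp
  · have hm' : (0 : ℝ) < m := by exact_mod_cast hm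
    have := Real.log_le_log hm' (show (m : ℝ) ≤ ((m + 1 : ℕ) : ℝ) by push_cast; linarith)
    linarith

theorem lb_main {A c C : ℝ} (hc : 0 < c) (hC : 0 < C)
    (H : ∀ (M β u : ℝ) (a b : ℕ), 1 ≤ M → 0 ≤ β → β ≤ 1 → M ^ (1 / 2 : ℝ) ≤ |u| → |u| ≤ M ^ A →
      M ≤ a → a ≤ b → (b : ℝ) ≤ 2 * M → ‖∑ m ∈ Ioc a b, xiu (m + β) u‖ ≤ C * M ^ (1 - c))
    (hA : 0 ≤ A) (q : ℕ) (hq : 1 ≤ q) (ψ : DirichletCharacter ℂ q) (K : ℕ) (hK : 1 ≤ K) (σ u : ℝ)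
    (hσ : 0 < σ) (hσ1 : σ ≤ 1) (hu2 : |u| ≤ (K : ℝ) ^ A) (D : ℝ)
    (hD : ψ ≠ 1 ∨ (u ≠ 0 ∧ 1 / |u| ≤ D)) (hD0 : 0 ≤ D) :
    ‖Gv (fun n => ψ n) σ u‖ ≤ 1 + Real.log ((q * (K + 1) : ℕ) : ℝ) + C / (1 - (2 : ℝ) ^ (-c)) + 12 + D := by
  set s : ℂ := ((1 + σ : ℝ) : ℂ) + (u : ℂ) * Complex.I with hs
  have hsre : s.re = 1 + σ := by simp [hs]
  have hs1 : 1 < s.re := by rw [hsre]; linarith
  have hK1 : (1 : ℝ) ≤ K := by exact_mod_cast hK
  have hq0 : (0 : ℝ) < q := by exact_mod_cast hq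
  -- choice of I
  have hex : ∃ I : ℕ, u ^ 2 ≤ ((2 ^ I * K : ℕ) : ℝ) := by
    obtain ⟨I, hI⟩ := pow_unbounded_of_one_lt (u ^ 2) (one_lt_two)
    refine ⟨I, hI.le.trans ?_⟩
    push_cast
    exact le_mul_of_one_le_right (by positivity) hK1
  classical
  obtain ⟨I, hI1, hI2⟩ : ∃ I : ℕ, u ^ 2 ≤ ((2 ^ I * K : ℕ) : ℝ) ∧ ∀ i < I, ((2 ^ i * K : ℕ) : ℝ) ≤ u ^ 2 :=
    ⟨Nat.find hex, Nat.find_spec hex, fun i hi => (not_le.1 (Nat.find_min hex hi)).le⟩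
  obtain ⟨K1, hK1def⟩ : ∃ K1 : ℕ, K1 = 2 ^ I * K := ⟨_, rfl⟩
  rw [← hK1def] at hI1
  have hKK1 : K ≤ K1 := by
    rw [hK1def]
    exact Nat.le_mul_of_pos_left K (by positivity)
  have hK1one : 1 ≤ K1 := hK.trans hKK1
  have hK1R : (1 : ℝ) ≤ K1 := by exact_mod_cast hK1one
  -- the norm of s
  have hsn : ‖s‖ ≤ 2 + |u| := by
    have h1 : ‖s‖ ≤ ‖((1 + σ : ℝ) : ℂ)‖ + ‖(u : ℂ) * Complex.I‖ := norm_add_le _ _
    rw [Complex.norm_real, Real.norm_eq_abs, abs_of_pos (by linarith), norm_mul, Complex.norm_I, mul_one,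
      Complex.norm_real, Real.norm_eq_abs] at h1
    linarith
  have huK : |u| ≤ K1 := by
    rcases le_or_gt |u| 1 with h | h
    · exact h.trans hK1R
    · have : |u| ≤ u ^ 2 := by
        rw [← sq_abs]
        nlinarith
      exact this.trans hI1
  have hD2 : 4 * ‖s‖ * (1 / (K1 : ℝ)) ≤ 12 := by
    rw [mul_one_div, div_le_iff₀ (by linarith)]
    linarith
  obtain ⟨G, hG⟩ : ∃ G : ℕ → ℂ, ∀ n, G n = ((n : ℝ) : ℂ) ^ (1 - s) / (1 - s) := ⟨_, fun _ => rfl⟩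
  have hs1' : (1 - s) ≠ 0 := by
    intro h
    have := congrArg Complex.re h
    simp [hsre] at this
    linarith
  have hGn : ∀ n : ℕ, 1 ≤ n → ‖G n‖ = (n : ℝ) ^ (-σ) / ‖1 - s‖ := by
    intro n hn
    have hn0 : (0 : ℝ) < n := by exact_mod_cast hn
    rw [hG, norm_div, Complex.norm_cpow_eq_rpow_re_of_pos hn0]
    congr 2
    simp [hsre]
  have hGK : ψ ≠ 1 ∨ ‖G K1‖ ≤ D := by
    rcases hD with h | ⟨hu, h⟩
    · exact Or.inl h
    · right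
      refine le_trans ?_ h
      rw [hGn K1 hK1one]
      refine div_le_div₀ zero_le_one ?_ (abs_pos.2 hu) ?_
      · exact Real.rpow_le_one_of_one_le_of_nonpos hK1R (by linarith)
      · have h2 := Complex.abs_im_le_norm (1 - s)
        have h3 : (1 - s).im = -u := by simp [hs]
        rwa [h3, abs_neg] at h2
  -- the inner sums
  have hin : ∀ β : ℝ, 0 ≤ β → β ≤ 1 → ∀ n, K1 ≤ n →
      ‖∑ m ∈ Ioc K n, (((m : ℝ) + β : ℝ) : ℂ) ^ (-s) - (G n - G K1)‖ ≤ C / (1 - (2 : ℝ) ^ (-c)) + 12 := by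
    intro β hβ hβ1 n hn
    have h1 := lb_dyadic hc hC H K hK β σ u hβ hβ1 hσ hA hu2 I hI2
    rw [← hK1def, ← hs] at h1
    have h2 := lb_tail s hs1 β hβ hβ1 K1 hK1one n hn
    have h3 : 4 * ‖s‖ * (1 / (K1 : ℝ) - 1 / (n : ℝ)) ≤ 12 := by
      have h4 : 0 ≤ 4 * ‖s‖ * (1 / (n : ℝ)) := by positivity
      rw [mul_sub]
      linarith
    have e : ∑ m ∈ Ioc K n, (((m : ℝ) + β : ℝ) : ℂ) ^ (-s) - (G n - G K1)
        = ∑ m ∈ Ioc K K1, (((m : ℝ) + β : ℝ) : ℂ) ^ (-s)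
          + (∑ m ∈ Ioc K1 n, (((m : ℝ) + β : ℝ) : ℂ) ^ (-s) - (G n - G K1)) := by
      rw [← Finset.Ioc_union_Ioc_eq_Ioc hKK1 hn, Finset.sum_union (Finset.Ioc_disjoint_Ioc_of_le le_rfl)]
      ring
    rw [e]
    refine (norm_add_le _ _).trans (add_le_add h1 ?_)
    rw [hG n, hG K1]
    exact h2.trans h3
  -- the terms
  have hterm : ∀ m r : ℕ, 1 ≤ m → LSeries.term (fun n => ψ n) s (q * m + r)
      = ψ (r : ZMod q) * (((q : ℝ) : ℂ) ^ (-s) * (((m : ℝ) + (r : ℝ) / q : ℝ) : ℂ) ^ (-s)) := by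
    intro m r hm
    have hne : q * m + r ≠ 0 := by
      have : 0 < q * m := Nat.mul_pos hq hm
      omega
    rw [LSeries.term_of_ne_zero hne, ← Complex.mul_cpow_ofReal_nonneg hq0.le (by positivity), ← Complex.ofReal_mul]
    have e1 : (q : ℝ) * ((m : ℝ) + (r : ℝ) / q) = ((q * m + r : ℕ) : ℝ) := by
      push_cast
      field_simp
    rw [e1, Complex.cpow_neg, Complex.ofReal_natCast, div_eq_mul_inv]
    congr 2
    push_cast
    simp
  have hqn : ‖((q : ℝ) : ℂ) ^ (-s)‖ ≤ 1 / q := by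
    rw [Complex.norm_cpow_eq_rpow_re_of_pos hq0, one_div, ← Real.rpow_neg_one]
    refine Real.rpow_le_rpow_of_exponent_le (by exact_mod_cast hq) ?_
    simp [hsre]
    linarith
  -- partial sums
  have hpart : ∀ n : ℕ, K1 ≤ n → ‖∑ i ∈ range (q * (n + 1)), LSeries.term (fun n => ψ n) s i‖
      ≤ 1 + Real.log ((q * (K + 1) : ℕ) : ℝ) + (C / (1 - (2 : ℝ) ^ (-c)) + 12) + (‖G n‖ + D) := by
    intro n hn
    rw [lb_split _ q K n (hKK1.trans hn)]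
    have e : ∑ r ∈ range q, ∑ m ∈ Ioc K n, LSeries.term (fun n => ψ n) s (q * m + r)
        = ((q : ℝ) : ℂ) ^ (-s) * ((∑ r ∈ range q, ψ (r : ZMod q)) * (G n - G K1))
          + ∑ r ∈ range q, ψ (r : ZMod q) * (((q : ℝ) : ℂ) ^ (-s)
            * (∑ m ∈ Ioc K n, (((m : ℝ) + (r : ℝ) / q : ℝ) : ℂ) ^ (-s) - (G n - G K1))) := by
      rw [Finset.sum_mul, Finset.mul_sum, ← Finset.sum_add_distrib]
      refine Finset.sum_congr rfl fun r _ => ?_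
      have h5 : ∑ m ∈ Ioc K n, LSeries.term (fun n => ψ n) s (q * m + r)
          = ψ (r : ZMod q) * (((q : ℝ) : ℂ) ^ (-s) * ∑ m ∈ Ioc K n, (((m : ℝ) + (r : ℝ) / q : ℝ) : ℂ) ^ (-s)) := by
        rw [Finset.mul_sum, Finset.mul_sum]
        refine Finset.sum_congr rfl fun m hm => ?_
        rw [Finset.mem_Ioc] at hm
        exact hterm m r (by omega)
      rw [h5]
      ring
    rw [e]
    have h6 := lb_head q ψ s hs1.le (q * (K + 1)) (Nat.mul_pos hq (Nat.succ_pos K))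
    have h7 : ‖((q : ℝ) : ℂ) ^ (-s) * ((∑ r ∈ range q, ψ (r : ZMod q)) * (G n - G K1))‖ ≤ ‖G n‖ + D := by
      rcases hGK with h | h
      · rw [lb_char q hq ψ h]
        simp only [zero_mul, mul_zero, norm_zero]
        positivity
      · rw [norm_mul, norm_mul]
        have h8 : ‖∑ r ∈ range q, ψ (r : ZMod q)‖ ≤ q := by
          refine (norm_sum_le_of_le _ fun r _ => ψ.norm_le_one _).trans (le_of_eq ?_)
          simp
        have h9 : ‖G n - G K1‖ ≤ ‖G n‖ + D := (norm_sub_le _ _).trans (by linarith)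
        calc ‖((q : ℝ) : ℂ) ^ (-s)‖ * (‖∑ r ∈ range q, ψ (r : ZMod q)‖ * ‖G n - G K1‖)
            ≤ 1 / q * (q * (‖G n‖ + D)) := by
              refine mul_le_mul hqn (mul_le_mul h8 h9 (norm_nonneg _) hq0.le) (by positivity) (by positivity)
          _ = ‖G n‖ + D := by field_simp
    have h10 : ‖∑ r ∈ range q, ψ (r : ZMod q) * (((q : ℝ) : ℂ) ^ (-s)
            * (∑ m ∈ Ioc K n, (((m : ℝ) + (r : ℝ) / q : ℝ) : ℂ) ^ (-s) - (G n - G K1)))‖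
        ≤ C / (1 - (2 : ℝ) ^ (-c)) + 12 := by
      refine (norm_sum_le_of_le (f := fun r : ℕ => ψ (r : ZMod q) * (((q : ℝ) : ℂ) ^ (-s)
            * (∑ m ∈ Ioc K n, (((m : ℝ) + (r : ℝ) / q : ℝ) : ℂ) ^ (-s) - (G n - G K1))))
          (n := fun _ => 1 / q * (C / (1 - (2 : ℝ) ^ (-c)) + 12)) _ fun r hr => ?_).trans (le_of_eq ?_)
      · rw [Finset.mem_range] at hr
        have hr' : (r : ℝ) ≤ q := by exact_mod_cast hr.le
        have h11 := hin ((r : ℝ) / q) (by positivity) ((div_le_one hq0).2 hr') n hn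
        rw [norm_mul, norm_mul]
        calc ‖ψ (r : ZMod q)‖ * (‖((q : ℝ) : ℂ) ^ (-s)‖ * _)
            ≤ 1 * (1 / q * (C / (1 - (2 : ℝ) ^ (-c)) + 12)) :=
              mul_le_mul (ψ.norm_le_one _) (mul_le_mul hqn h11 (norm_nonneg _) (by positivity)) (by positivity)
                zero_le_one
          _ = _ := one_mul _
      · rw [Finset.sum_const, Finset.card_range, nsmul_eq_mul]
        field_simp
    refine (norm_add_le _ _).trans ?_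
    have h12 := norm_add_le (((q : ℝ) : ℂ) ^ (-s) * ((∑ r ∈ range q, ψ (r : ZMod q)) * (G n - G K1)))
      (∑ r ∈ range q, ψ (r : ZMod q) * (((q : ℝ) : ℂ) ^ (-s)
            * (∑ m ∈ Ioc K n, (((m : ℝ) + (r : ℝ) / q : ℝ) : ℂ) ^ (-s) - (G n - G K1))))
    linarith
  -- the limit
  have hsum : LSeriesSummable (fun n => ψ n) s :=
    LSeriesSummable_of_bounded_of_one_lt_re (m := 1) (fun n _ => ψ.norm_le_one _) hs1
  have hlim1 : Filter.Tendsto (fun n : ℕ => ‖∑ i ∈ range (q * (n + 1)), LSeries.term (fun n => ψ n) s i‖)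
      Filter.atTop (nhds ‖Gv (fun n => ψ n) σ u‖) := by
    have h1 := hsum.hasSum.tendsto_sum_nat
    have h2 : Filter.Tendsto (fun n : ℕ => q * (n + 1)) Filter.atTop Filter.atTop := by
      refine Filter.tendsto_atTop_mono (fun n => ?_) Filter.tendsto_id
      show n ≤ q * (n + 1)
      nlinarith
    exact (h1.comp h2).norm
  have hlim2 : Filter.Tendsto (fun n : ℕ => 1 + Real.log ((q * (K + 1) : ℕ) : ℝ)
      + (C / (1 - (2 : ℝ) ^ (-c)) + 12) + (‖G n‖ + D)) Filter.atTop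
      (nhds (1 + Real.log ((q * (K + 1) : ℕ) : ℝ) + (C / (1 - (2 : ℝ) ^ (-c)) + 12) + (0 + D))) := by
    refine Filter.Tendsto.const_add _ (Filter.Tendsto.add_const _ ?_)
    have h3 : Filter.Tendsto (fun n : ℕ => (n : ℝ) ^ (-σ) / ‖1 - s‖) Filter.atTop (nhds (0 / ‖1 - s‖)) :=
      ((tendsto_rpow_neg_atTop hσ).comp tendsto_natCast_atTop_atTop).div_const _
    rw [zero_div] at h3
    refine h3.congr' ?_
    filter_upwards [Filter.eventually_ge_atTop 1] with n hn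
    exact (hGn n hn).symm
  have hfin := le_of_tendsto_of_tendsto hlim1 hlim2 (by
    filter_upwards [Filter.eventually_ge_atTop K1] with n hn
    exact hpart n hn)
  linarith

theorem st_LB (hV : ST_VDC) : ST_LB := by
  intro q ψ A k hq hA hk
  have hkA : 1 ≤ k * A := by nlinarith
  obtain ⟨c, hc, C, hC, H⟩ := hV (k * A) hkA
  obtain ⟨D1, hD1⟩ : ∃ D1 : ℝ, D1 = C / (1 - (2 : ℝ) ^ (-c)) := ⟨_, rfl⟩
  obtain ⟨R, hR⟩ : ∃ R : ℝ, R = 13 + Real.log (3 * q) + D1 := ⟨_, rfl⟩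
  refine ⟨Real.exp (max 1 (k * R)), fun N u hN h0 hu => ?_⟩
  have hN0 : 0 < N := (Real.exp_pos _).trans_le hN
  have hlog : max 1 (k * R) ≤ Real.log N := by
    rw [Real.le_log_iff_exp_le hN0]
    exact hN
  have hlog1 : 1 ≤ Real.log N := (le_max_left _ _).trans hlog
  have hlogR : k * R ≤ Real.log N := (le_max_right _ _).trans hlog
  have hk0 : 0 < k := by linarith
  have hN1 : 1 ≤ N := by
    have := Real.log_nonneg_iff hN0 |>.1 (by linarith)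
    exact this
  have hq0 : (0 : ℝ) < q := by exact_mod_cast hq
  obtain ⟨x0, hx0⟩ : ∃ x0 : ℝ, x0 = N ^ (1 / k) := ⟨_, rfl⟩
  have hx01 : 1 ≤ x0 := by
    rw [hx0]
    exact Real.one_le_rpow hN1 (by positivity)
  obtain ⟨K, hK⟩ : ∃ K : ℕ, K = ⌈x0⌉₊ := ⟨_, rfl⟩
  have hxK : x0 ≤ K := by
    rw [hK]
    exact Nat.le_ceil x0
  have hKx : (K : ℝ) ≤ x0 + 1 := by
    rw [hK]
    exact (Nat.ceil_lt_add_one (by linarith)).le
  have hK1 : 1 ≤ K := by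
    have : (1 : ℝ) ≤ K := hx01.trans hxK
    exact_mod_cast this
  have huK : |u| ≤ (K : ℝ) ^ (k * A) := by
    refine hu.trans ?_
    have h1 : N ≤ (K : ℝ) ^ k := by
      calc N = (N ^ (1 / k)) ^ k := by
            rw [← Real.rpow_mul hN0.le, one_div, inv_mul_cancel₀ hk0.ne', Real.rpow_one]
        _ ≤ (K : ℝ) ^ k := by
            rw [← hx0]
            exact Real.rpow_le_rpow (by linarith) hxK hk0.le
    calc N ^ A ≤ ((K : ℝ) ^ k) ^ A := Real.rpow_le_rpow hN0.le h1 (by linarith)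
      _ = (K : ℝ) ^ (k * A) := by rw [Real.rpow_mul (by positivity)]
  classical
  obtain ⟨D, hDdef⟩ : ∃ D : ℝ, D = (if ψ = 1 then 1 / |u| else 0) := ⟨_, rfl⟩
  have hD : ψ ≠ 1 ∨ (u ≠ 0 ∧ 1 / |u| ≤ D) := by
    by_cases hψ : ψ = 1
    · right
      refine ⟨h0.resolve_right (not_not.2 hψ), ?_⟩
      rw [hDdef, if_pos hψ]
    · exact Or.inl hψ
  have hD0 : 0 ≤ D := by
    rw [hDdef]
    split_ifs
    · positivity
    · exact le_rfl
  have hmain := lb_main hc hC H (by linarith) q hq ψ K hK1 (1 / Real.log N) u (by positivity)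
    ((div_le_one (by linarith)).2 hlog1) huK D hD hD0
  rw [← hD1] at hmain
  have hlogK : Real.log ((q * (K + 1) : ℕ) : ℝ) ≤ Real.log (3 * q) + 1 / k * Real.log N := by
    have h1 : ((q * (K + 1) : ℕ) : ℝ) ≤ (3 * q) * x0 := by
      push_cast
      nlinarith
    have h2 : (0 : ℝ) < ((q * (K + 1) : ℕ) : ℝ) := by
      have : 0 < q * (K + 1) := Nat.mul_pos hq (Nat.succ_pos K)
      exact_mod_cast this
    calc Real.log ((q * (K + 1) : ℕ) : ℝ) ≤ Real.log ((3 * q) * x0) := Real.log_le_log h2 h1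
      _ = Real.log (3 * q) + Real.log x0 := Real.log_mul (by positivity) (by positivity)
      _ = Real.log (3 * q) + 1 / k * Real.log N := by
          rw [hx0, Real.log_rpow hN0]
  have hRk : R ≤ 1 / k * Real.log N := by
    rw [one_div, inv_mul_eq_div, le_div_iff₀ hk0]
    linarith
  have e : 2 / k * Real.log N = 1 / k * Real.log N + 1 / k * Real.log N := by ring
  rw [← hDdef, e]
  linarith

end Pool.Agent.Helper40.MR
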