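import Pool.Agent.Helper40.MR.Defs

/-!
# MU: from the Liouville function to the Moebius function
-/

set_option autoImplicit false

open Finset MeasureTheory
open scoped BigOperators Nat

namespace Pool.Agent.Helper40.MR

theorem mu_sq_dvd (d b a : ℕ) (ha : Squarefree a) : d ^ 2 ∣ b ^ 2 * a ↔ d ∣ b := by
  constructor
  · intro h
    rcases Nat.eq_zero_or_pos b with hb | hb
    · rw [hb]
      exact dvd_zero d
    have ha0 : a ≠ 0 := ha.ne_zero
    have hd : 0 < d := by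
      rcases Nat.eq_zero_or_pos d with hd | hd
      · rw [hd, zero_pow two_ne_zero] at h
        have h2 := Nat.eq_zero_of_zero_dvd h
        have : 0 < b ^ 2 * a := Nat.mul_pos (pow_pos hb 2) (Nat.pos_of_ne_zero ha0)
        omega
      · exact hd
    obtain ⟨g, d', b', hg, hcop, hd', hb'⟩ := Nat.exists_coprime' (m := d) (n := b) (Nat.gcd_pos_of_pos_left b hd)
    subst hd'
    subst hb'
    have h2 : d' ^ 2 ∣ b' ^ 2 * a := by
      have h3 : g ^ 2 * d' ^ 2 ∣ g ^ 2 * (b' ^ 2 * a) := by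
        have e1 : g ^ 2 * d' ^ 2 = (d' * g) ^ 2 := by ring
        have e2 : g ^ 2 * (b' ^ 2 * a) = (b' * g) ^ 2 * a := by ring
        rw [e1, e2]
        exact h
      exact Nat.dvd_of_mul_dvd_mul_left (pow_pos hg 2) h3
    have h4 : d' ^ 2 ∣ a := (Nat.Coprime.pow 2 2 hcop).dvd_of_dvd_mul_left h2
    have h5 : IsUnit d' := ha d' (by rw [← pow_two]; exact h4)
    rw [Nat.isUnit_iff] at h5
    rw [h5]
    exact Nat.mul_dvd_mul (one_dvd b') dvd_rfl
  · intro h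
    exact (pow_dvd_pow_of_dvd h 2).mul_right a

/-- `∑_{d^2 ∣ n} μ(d) = 1` or `0` -/
theorem mu_sum (n M : ℕ) (hn : 0 < n) (hM : n ≤ M) :
    ∑ d ∈ (Icc 1 M).filter (fun d => d ^ 2 ∣ n), (ArithmeticFunction.moebius d : ℤ)
      = if Squarefree n then 1 else 0 := by
  obtain ⟨a, b, ha, hb, hab, hsq⟩ := Nat.sq_mul_squarefree_of_pos hn
  have h1 : (Icc 1 M).filter (fun d => d ^ 2 ∣ n) = b.divisors := by
    ext d
    rw [Finset.mem_filter, Finset.mem_Icc, Nat.mem_divisors, ← hab, mu_sq_dvd d b a hsq]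
    constructor
    · rintro ⟨_, h⟩
      exact ⟨h, hb.ne'⟩
    · rintro ⟨h, _⟩
      refine ⟨⟨Nat.pos_of_dvd_of_pos h hb, ?_⟩, h⟩
      have h2 : d ≤ b := Nat.le_of_dvd hb h
      have h3 : b ≤ b ^ 2 * a := by nlinarith
      omega
  rw [h1, ← ArithmeticFunction.coe_mul_zeta_apply, ArithmeticFunction.moebius_mul_coe_zeta,
    ArithmeticFunction.one_apply]
  congr 1
  rw [eq_iff_iff]
  constructor
  · rintro rfl
    rw [← hab]
    simpa using hsq
  · intro h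
    have h2 : IsUnit b := h b (by rw [← hab, ← pow_two]; exact Dvd.intro a rfl)
    exact Nat.isUnit_iff.1 h2

theorem mu_lam_norm (n : ℕ) : ‖lam n‖ ≤ 1 := by
  unfold lam
  split_ifs
  · simp
  · simp

theorem mu_lam_mul (a b : ℕ) (ha : a ≠ 0) (hb : b ≠ 0) : lam (a * b) = lam a * lam b := by
  unfold lam
  rw [if_neg ha, if_neg hb, if_neg (Nat.mul_ne_zero ha hb), (Nat.perm_primeFactorsList_mul ha hb).length_eq,
    List.length_append, pow_add]

theorem mu_lam_sq (d k : ℕ) (hd : d ≠ 0) (hk : k ≠ 0) : lam (d ^ 2 * k) = lam k := by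
  rw [mu_lam_mul _ _ (pow_ne_zero 2 hd) hk, pow_two, mu_lam_mul _ _ hd hd]
  unfold lam
  rw [if_neg hd, ← mul_pow]
  simp

/-- the decomposition of the Moebius function -/
theorem mu_dec (n M : ℕ) (hn : 0 < n) (hM : n ≤ M) :
    ((ArithmeticFunction.moebius n : ℤ) : ℂ)
      = ∑ d ∈ Icc 1 M, (ArithmeticFunction.moebius d : ℤ) * (if d ^ 2 ∣ n then lam n else 0) := by
  have h1 := mu_sum n M hn hM
  have h2 : ∑ d ∈ Icc 1 M, ((ArithmeticFunction.moebius d : ℤ) : ℂ) * (if d ^ 2 ∣ n then lam n else 0)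
      = ((∑ d ∈ (Icc 1 M).filter (fun d => d ^ 2 ∣ n), (ArithmeticFunction.moebius d : ℤ) : ℤ) : ℂ) * lam n := by
    rw [Int.cast_sum, Finset.sum_mul, Finset.sum_filter]
    refine Finset.sum_congr rfl fun d _ => ?_
    split_ifs <;> simp
  rw [h2, h1]
  split_ifs with h
  · rw [ArithmeticFunction.moebius_apply_of_squarefree h]
    unfold lam
    rw [if_neg hn.ne']
    simp [ArithmeticFunction.cardFactors_apply]
  · rw [ArithmeticFunction.moebius_eq_zero_of_not_squarefree h]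
    simp

theorem mu_hit (P Q : ℝ) (d k : ℕ) (hd : 1 ≤ d) (hP : (d : ℝ) ≤ P) : Hit P Q (d ^ 2 * k) ↔ Hit P Q k := by
  constructor
  · rintro ⟨p, hp, h1, h2, h3⟩
    refine ⟨p, hp, h1, h2, ?_⟩
    rcases (Nat.Prime.dvd_mul hp).1 h3 with h | h
    · exfalso
      have h4 := Nat.le_of_dvd hd (hp.dvd_of_dvd_pow h)
      have h5 : (p : ℝ) ≤ d := by exact_mod_cast h4
      linarith
    · exact h
  · rintro ⟨p, hp, h1, h2, h3⟩
    exact ⟨p, hp, h1, h2, h3.mul_left _⟩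

theorem mu_SS (K y θ₁ θ₂ Z : ℝ) (d k : ℕ) (hd : 1 ≤ d) (hy : 1 ≤ y) (hdy : (d : ℝ) ≤ Real.exp y)
    (hdZ : (d : ℝ) ≤ Z ^ θ₁) : SS K y θ₁ θ₂ Z (d ^ 2 * k) ↔ SS K y θ₁ θ₂ Z k := by
  unfold SS
  rw [mu_hit _ _ d k hd hdZ]
  refine and_congr (forall₂_congr fun j _ => ?_) Iff.rfl
  refine mu_hit _ _ d k hd (hdy.trans ?_)
  unfold Psc
  exact Real.exp_le_exp.2 (le_self_pow₀ hy (by positivity))

/-- windows of a nonnegative function -/
theorem mu_win (g : ℕ → ℝ) (M L : ℕ) (hg : ∀ n, 0 ≤ g n) (hg0 : ∀ n, n ∉ Icc 1 M → g n = 0) :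
    ∑ m ∈ range (M + 1), ∑ j ∈ range L, g (m + j) ≤ L * ∑ n ∈ Icc 1 M, g n := by
  rw [Finset.sum_comm]
  have h1 : ∀ j ∈ range L, ∑ m ∈ range (M + 1), g (m + j) ≤ ∑ n ∈ Icc 1 M, g n := by
    intro j _
    have h2 : ∑ m ∈ range (M + 1), g (m + j) = ∑ n ∈ (range (M + 1)).image (fun m => m + j), g n := by
      rw [Finset.sum_image]
      intro a _ b _ h
      simpa using h
    rw [h2, ← Finset.sum_filter_of_ne (p := fun n => n ∈ Icc 1 M)]
    · refine Finset.sum_le_sum_of_subset_of_nonneg ?_ fun n _ _ => hg n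
      intro n hn
      exact (Finset.mem_filter.1 hn).2
    · intro n _ hn
      by_contra h
      exact hn (hg0 n h)
  refine (Finset.sum_le_sum h1).trans (le_of_eq ?_)
  rw [Finset.sum_const, Finset.card_range, nsmul_eq_mul]

/-- the number of pairs `(d, n)` with `d > D`, `d^2 ∣ n` -/
theorem mu_tail (M D : ℕ) (hD : 1 ≤ D) :
    ∑ n ∈ Icc 1 M, (((Ioc D M).filter (fun d => d ^ 2 ∣ n)).card : ℝ) ≤ M / D := by
  have h1 : ∑ n ∈ Icc 1 M, (((Ioc D M).filter (fun d => d ^ 2 ∣ n)).card : ℝ)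
      = ∑ d ∈ Ioc D M, (((Icc 1 M).filter (fun n => d ^ 2 ∣ n)).card : ℝ) := by
    simp_rw [Finset.card_filter, Nat.cast_sum]
    rw [Finset.sum_comm]
  rw [h1]
  rcases le_total D M with hDM | hDM
  · have h2 : ∀ d ∈ Ioc D M, (((Icc 1 M).filter (fun n => d ^ 2 ∣ n)).card : ℝ) ≤ M * ((d : ℝ) ^ 2)⁻¹ := by
      intro d _
      have h3 : ((Icc 1 M).filter (fun n => d ^ 2 ∣ n)).card = M / d ^ 2 := Nat.Ioc_filter_dvd_card_eq_div M (d ^ 2)
      rw [h3, ← div_eq_mul_inv]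
      have := Nat.cast_div_le (α := ℝ) (m := M) (n := d ^ 2)
      push_cast at this
      exact this
    refine (Finset.sum_le_sum h2).trans ?_
    rw [← Finset.mul_sum, div_eq_mul_inv]
    refine mul_le_mul_of_nonneg_left ?_ (Nat.cast_nonneg M)
    have h4 := sum_Ioc_inv_sq_le_sub (α := ℝ) (k := D) (n := M) (by omega) hDM
    have h5 : (0 : ℝ) ≤ (M : ℝ)⁻¹ := by positivity
    linarith
  · rw [Finset.Ioc_eq_empty (by omega), Finset.sum_empty]
    positivity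

theorem mu_split (ph : ℕ → ℝ) (e n : ℕ) :
    ∑ m ∈ range (e * n), ph m = ∑ r ∈ range e, ∑ m ∈ range n, ph (e * m + r) := by
  induction n with
  | zero => simp
  | succ n ih =>
    rw [show e * (n + 1) = e * n + e by ring, Finset.sum_range_add, ih]
    simp_rw [Finset.sum_range_succ, Finset.sum_add_distrib]

/-- splitting into residue classes -/
theorem mu_res (ph : ℕ → ℝ) (hph : ∀ n, 0 ≤ ph n) (M e : ℕ) (he : 0 < e) :
    ∑ m ∈ range (M + 1), ph m ≤ ∑ r ∈ range e, ∑ m ∈ range (M / e + 1), ph (e * m + r) := by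
  rw [← mu_split]
  refine Finset.sum_le_sum_of_subset_of_nonneg ?_ fun n _ _ => hph n
  intro m hm
  rw [Finset.mem_range] at hm ⊢
  have := Nat.lt_mul_div_succ M he
  omega

/-- reindexing of a window -/
theorem mu_window (F c : ℕ → ℂ) (e L m r : ℕ) (he : 0 < e) (hL : 1 ≤ L) (hr : r < e) :
    ∑ j ∈ range L, (if e ∣ e * m + r + j then F (e * m + r + j) else 0) * c j
      = ∑ i ∈ range ((L + e - 2) / e + 1), F (e * (m + i)) *
        (if r ≤ e * i ∧ e * i - r < L then c (e * i - r) else 0) := by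
  have h1 : ∀ j, e ∣ e * m + r + j ↔ e ∣ r + j := by
    intro j
    rw [add_assoc]
    exact Nat.dvd_add_right (dvd_mul_right e m)
  have hl : ∑ j ∈ range L, (if e ∣ e * m + r + j then F (e * m + r + j) else 0) * c j
      = ∑ j ∈ (range L).filter (fun j => e ∣ r + j), F (e * m + r + j) * c j := by
    rw [Finset.sum_filter]
    refine Finset.sum_congr rfl fun j _ => ?_
    rw [if_congr (h1 j) rfl rfl]
    split_ifs <;> simp
  have hr2 : ∑ i ∈ range ((L + e - 2) / e + 1), F (e * (m + i)) *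
        (if r ≤ e * i ∧ e * i - r < L then c (e * i - r) else 0)
      = ∑ i ∈ (range ((L + e - 2) / e + 1)).filter (fun i => r ≤ e * i ∧ e * i - r < L),
        F (e * (m + i)) * c (e * i - r) := by
    rw [Finset.sum_filter]
    refine Finset.sum_congr rfl fun j _ => ?_
    split_ifs <;> simp
  rw [hl, hr2]
  refine Finset.sum_nbij' (fun j => (r + j) / e) (fun i => e * i - r) ?_ ?_ ?_ ?_ ?_
  · intro j hj
    rw [Finset.mem_filter, Finset.mem_range] at hj ⊢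
    have h2 : e * ((r + j) / e) = r + j := Nat.mul_div_cancel' hj.2
    refine ⟨Nat.lt_succ_of_le (Nat.div_le_div_right (by omega)), ?_, ?_⟩ <;> omega
  · intro i hi
    rw [Finset.mem_filter, Finset.mem_range] at hi ⊢
    refine ⟨hi.2.2, ?_⟩
    rw [Nat.add_sub_cancel' hi.2.1]
    exact dvd_mul_right e i
  · intro j hj
    rw [Finset.mem_filter, Finset.mem_range] at hj
    have h2 : e * ((r + j) / e) = r + j := Nat.mul_div_cancel' hj.2
    show e * ((r + j) / e) - r = j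
    omega
  · intro i hi
    rw [Finset.mem_filter, Finset.mem_range] at hi
    show (r + (e * i - r)) / e = i
    rw [Nat.add_sub_cancel' hi.2.1]
    exact Nat.mul_div_cancel_left i he
  · intro j hj
    rw [Finset.mem_filter, Finset.mem_range] at hj
    have h2 : e * ((r + j) / e) = r + j := Nat.mul_div_cancel' hj.2
    show F (e * m + r + j) * c j = F (e * (m + (r + j) / e)) * c (e * ((r + j) / e) - r)
    rw [mul_add, h2, Nat.add_sub_cancel_left, add_assoc]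

/-- the contribution of one `d` -/
theorem mu_one {C E : ℝ} (hC : 0 < C)
    (e L M N Ld : ℕ) (he : 0 < e) (hL : 1 ≤ L) (hN : N = M / e) (hN1 : 1 ≤ N)
    (hLd : Ld = (L + e - 2) / e + 1) (hLdL : Ld ≤ L) (a F : ℕ → ℂ) (hF : ∀ k, F (e * k) = a k)
    (H : ∀ c : ℕ → ℂ, (∀ j, ‖c j‖ ≤ 1) →
      ∑ m ∈ range (N + 1), ‖∑ j ∈ range Ld, a (m + j) * c j‖ ^ 2 ≤ C * N * (Ld : ℝ) ^ 2 * Real.sqrt E)
    (c : ℕ → ℂ) (hc : ∀ j, ‖c j‖ ≤ 1) :
    ∑ m ∈ range (M + 1), ‖∑ j ∈ range L, (if e ∣ m + j then F (m + j) else 0) * c j‖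
      ≤ Real.sqrt (2 * C) * Real.sqrt (Real.sqrt E) * M * L := by
  have h1 := mu_res (fun m => ‖∑ j ∈ range L, (if e ∣ m + j then F (m + j) else 0) * c j‖)
    (fun n => norm_nonneg _) M e he
  refine h1.trans ?_
  have h2 : ∀ r ∈ range e, ∑ m ∈ range (M / e + 1),
      ‖∑ j ∈ range L, (if e ∣ e * m + r + j then F (e * m + r + j) else 0) * c j‖
      ≤ Real.sqrt (2 * C) * Real.sqrt (Real.sqrt E) * N * L := by
    intro r hr
    rw [Finset.mem_range] at hr
    obtain ⟨c', hc'⟩ : ∃ c' : ℕ → ℂ, ∀ i, c' i = if r ≤ e * i ∧ e * i - r < L then c (e * i - r) else 0 :=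
      ⟨_, fun _ => rfl⟩
    have hc1 : ∀ i, ‖c' i‖ ≤ 1 := by
      intro i
      rw [hc']
      split_ifs
      · exact hc _
      · simp
    have h3 : ∀ m ∈ range (M / e + 1),
        ‖∑ j ∈ range L, (if e ∣ e * m + r + j then F (e * m + r + j) else 0) * c j‖
        = ‖∑ i ∈ range Ld, a (m + i) * c' i‖ := by
      intro m _
      rw [mu_window F c e L m r he hL hr, ← hLd]
      congr 1
      refine Finset.sum_congr rfl fun i _ => ?_
      rw [hF, hc']
    rw [Finset.sum_congr rfl h3, ← hN]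
    have h4 := H c' hc1
    have h5 := sq_sum_le_card_mul_sum_sq (s := range (N + 1)) (f := fun m => ‖∑ i ∈ range Ld, a (m + i) * c' i‖)
    rw [Finset.card_range] at h5
    have hN1' : (1 : ℝ) ≤ N := by exact_mod_cast hN1
    have hLd' : (Ld : ℝ) ≤ L := by exact_mod_cast hLdL
    refine abs_le_of_sq_le_sq' ?_ (by positivity) |>.2
    calc (∑ m ∈ range (N + 1), ‖∑ i ∈ range Ld, a (m + i) * c' i‖) ^ 2
        ≤ ((N + 1 : ℕ) : ℝ) * ∑ m ∈ range (N + 1), ‖∑ i ∈ range Ld, a (m + i) * c' i‖ ^ 2 := h5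
      _ ≤ (2 * N) * (C * N * (L : ℝ) ^ 2 * Real.sqrt E) := by
          refine mul_le_mul ?_ (h4.trans ?_) (Finset.sum_nonneg fun _ _ => by positivity) (by positivity)
          · push_cast
            linarith
          · have : (Ld : ℝ) ^ 2 ≤ (L : ℝ) ^ 2 := by
              exact pow_le_pow_left₀ (by positivity) hLd' 2
            have h0 : 0 ≤ C * N := by positivity
            have h6 : C * N * (Ld : ℝ) ^ 2 ≤ C * N * (L : ℝ) ^ 2 := mul_le_mul_of_nonneg_left this h0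
            exact mul_le_mul_of_nonneg_right h6 (Real.sqrt_nonneg E)
      _ = (Real.sqrt (2 * C)) ^ 2 * (Real.sqrt (Real.sqrt E)) ^ 2 * N ^ 2 * L ^ 2 := by
          rw [Real.sq_sqrt (by positivity), Real.sq_sqrt (Real.sqrt_nonneg E)]
          ring
      _ = (Real.sqrt (2 * C) * Real.sqrt (Real.sqrt E) * N * L) ^ 2 := by ring
  refine (Finset.sum_le_sum h2).trans ?_
  rw [Finset.sum_const, Finset.card_range, nsmul_eq_mul]
  have h7 : (e : ℝ) * N ≤ M := by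
    rw [hN]
    exact_mod_cast Nat.mul_div_le M e
  have h8 : 0 ≤ Real.sqrt (2 * C) * Real.sqrt (Real.sqrt E) * L := by positivity
  calc (e : ℝ) * (Real.sqrt (2 * C) * Real.sqrt (Real.sqrt E) * N * L)
      = (Real.sqrt (2 * C) * Real.sqrt (Real.sqrt E) * L) * (e * N) := by ring
    _ ≤ (Real.sqrt (2 * C) * Real.sqrt (Real.sqrt E) * L) * M := mul_le_mul_of_nonneg_left h7 h8
    _ = Real.sqrt (2 * C) * Real.sqrt (Real.sqrt E) * M * L := by ring

/-- the combinatorial part -/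
theorem mu_comb {B : ℝ} (L M D : ℕ) (hD : 1 ≤ D) (hDM : D ≤ M) (f F c : ℕ → ℂ)
    (hc : ∀ j, ‖c j‖ ≤ 1) (hf1 : ∀ n, ‖f n‖ ≤ 1) (hF1 : ∀ n, ‖F n‖ ≤ 1)
    (hF0 : ∀ n, n ∉ Icc 1 M → F n = 0)
    (hf : ∀ n, f n = ∑ d ∈ Icc 1 M, ((ArithmeticFunction.moebius d : ℤ) : ℂ) * (if d ^ 2 ∣ n then F n else 0))
    (H : ∀ d ∈ Icc 1 D,
      ∑ m ∈ range (M + 1), ‖∑ j ∈ range L, (if d ^ 2 ∣ m + j then F (m + j) else 0) * c j‖ ≤ B * M * L) :
    ∑ m ∈ range (M + 1), ‖∑ j ∈ range L, f (m + j) * c j‖ ^ 2 ≤ M * (L : ℝ) ^ 2 * (D * B + 1 / D) := by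
  obtain ⟨g, hg⟩ : ∃ g : ℕ → ℝ, ∀ n, g n = if n ∈ Icc 1 M then (((Ioc D M).filter (fun d => d ^ 2 ∣ n)).card : ℝ) else 0 :=
    ⟨_, fun _ => rfl⟩
  have hg0 : ∀ n, 0 ≤ g n := by
    intro n
    rw [hg]
    split_ifs
    · positivity
    · exact le_rfl
  have hmu : ∀ d : ℕ, ‖((ArithmeticFunction.moebius d : ℤ) : ℂ)‖ ≤ 1 := by
    intro d
    rw [Complex.norm_intCast]
    exact_mod_cast ArithmeticFunction.abs_moebius_le_one
  -- pointwise
  have hW : ∀ m, ‖∑ j ∈ range L, f (m + j) * c j‖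
      ≤ ∑ d ∈ Icc 1 D, ‖∑ j ∈ range L, (if d ^ 2 ∣ m + j then F (m + j) else 0) * c j‖
        + ∑ j ∈ range L, g (m + j) := by
    intro m
    have e1 : ∑ j ∈ range L, f (m + j) * c j
        = ∑ d ∈ Icc 1 M, ((ArithmeticFunction.moebius d : ℤ) : ℂ) *
          ∑ j ∈ range L, (if d ^ 2 ∣ m + j then F (m + j) else 0) * c j := by
      simp_rw [Finset.mul_sum]
      rw [Finset.sum_comm]
      refine Finset.sum_congr rfl fun j _ => ?_
      rw [hf, Finset.sum_mul]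
      refine Finset.sum_congr rfl fun d _ => ?_
      ring
    have e2 : Icc 1 M = Icc 1 D ∪ Ioc D M := by
      ext x
      simp only [Finset.mem_union, Finset.mem_Icc, Finset.mem_Ioc]
      omega
    have e3 : Disjoint (Icc 1 D) (Ioc D M) := by
      rw [Finset.disjoint_left]
      intro x hx hx2
      rw [Finset.mem_Icc] at hx
      rw [Finset.mem_Ioc] at hx2
      omega
    rw [e1]
    nth_rewrite 1 [e2]
    rw [Finset.sum_union e3]
    refine (norm_add_le _ _).trans (add_le_add ?_ ?_)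
    · refine norm_sum_le_of_le _ fun d _ => ?_
      rw [norm_mul]
      exact mul_le_of_le_one_left (norm_nonneg _) (hmu d)
    · have h1 : ‖∑ d ∈ Ioc D M, ((ArithmeticFunction.moebius d : ℤ) : ℂ) *
          ∑ j ∈ range L, (if d ^ 2 ∣ m + j then F (m + j) else 0) * c j‖
          ≤ ∑ d ∈ Ioc D M, ∑ j ∈ range L, (if d ^ 2 ∣ m + j ∧ m + j ∈ Icc 1 M then (1 : ℝ) else 0) := by
        refine norm_sum_le_of_le _ fun d _ => ?_
        rw [norm_mul]
        refine (mul_le_of_le_one_left (norm_nonneg _) (hmu d)).trans ?_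
        refine norm_sum_le_of_le _ fun j _ => ?_
        by_cases h2 : d ^ 2 ∣ m + j
        · by_cases h3 : m + j ∈ Icc 1 M
          · rw [if_pos h2, if_pos ⟨h2, h3⟩, norm_mul]
            calc ‖F (m + j)‖ * ‖c j‖ ≤ 1 * 1 := mul_le_mul (hF1 _) (hc j) (norm_nonneg _) zero_le_one
              _ = 1 := one_mul 1
          · rw [if_pos h2, hF0 _ h3, zero_mul, norm_zero]
            split_ifs <;> norm_num
        · rw [if_neg h2, zero_mul, norm_zero]
          split_ifs <;> norm_num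
      refine h1.trans (le_of_eq ?_)
      rw [Finset.sum_comm]
      refine Finset.sum_congr rfl fun j _ => ?_
      rw [hg]
      by_cases h3 : m + j ∈ Icc 1 M
      · rw [if_pos h3, Finset.card_filter, Nat.cast_sum]
        refine Finset.sum_congr rfl fun d _ => ?_
        by_cases h2 : d ^ 2 ∣ m + j
        · rw [if_pos ⟨h2, h3⟩, if_pos h2]
          simp
        · rw [if_neg (fun h => h2 h.1), if_neg h2]
          simp
      · rw [if_neg h3]
        refine Finset.sum_eq_zero fun d _ => ?_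
        rw [if_neg (fun h => h3 h.2)]
  -- summation
  have hsum : ∑ m ∈ range (M + 1), ‖∑ j ∈ range L, f (m + j) * c j‖ ≤ M * L * (D * B + 1 / D) := by
    refine (Finset.sum_le_sum fun m _ => hW m).trans ?_
    rw [Finset.sum_add_distrib, Finset.sum_comm]
    have h1 : ∑ d ∈ Icc 1 D, ∑ m ∈ range (M + 1),
        ‖∑ j ∈ range L, (if d ^ 2 ∣ m + j then F (m + j) else 0) * c j‖ ≤ D * (B * M * L) := by
      refine (Finset.sum_le_sum H).trans (le_of_eq ?_)
      rw [Finset.sum_const, Nat.card_Icc, nsmul_eq_mul]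
      congr 1
    have h2 := mu_win g M L hg0 (fun n hn => by rw [hg, if_neg hn])
    have h3 : ∑ n ∈ Icc 1 M, g n ≤ M / D := by
      have h4 : ∑ n ∈ Icc 1 M, g n = ∑ n ∈ Icc 1 M, (((Ioc D M).filter (fun d => d ^ 2 ∣ n)).card : ℝ) :=
        Finset.sum_congr rfl fun n hn => by rw [hg, if_pos hn]
      rw [h4]
      exact mu_tail M D hD
    have h5 : (L : ℝ) * ∑ n ∈ Icc 1 M, g n ≤ L * (M / D) := mul_le_mul_of_nonneg_left h3 (Nat.cast_nonneg L)
    calc _ ≤ D * (B * M * L) + L * (M / D) := add_le_add h1 (h2.trans h5)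
      _ = M * L * (D * B + 1 / D) := by ring
  have hsq : ∀ m ∈ range (M + 1), ‖∑ j ∈ range L, f (m + j) * c j‖ ^ 2 ≤ L * ‖∑ j ∈ range L, f (m + j) * c j‖ := by
    intro m _
    rw [pow_two]
    refine mul_le_mul_of_nonneg_right ?_ (norm_nonneg _)
    refine (norm_sum_le_of_le (n := fun _ => (1 : ℝ)) _ fun j _ => ?_).trans (le_of_eq ?_)
    · rw [norm_mul]
      calc ‖f (m + j)‖ * ‖c j‖ ≤ 1 * 1 := mul_le_mul (hf1 _) (hc j) (norm_nonneg _) zero_le_one
        _ = 1 := one_mul 1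
    · simp
  refine (Finset.sum_le_sum hsq).trans ?_
  rw [← Finset.mul_sum]
  calc (L : ℝ) * ∑ m ∈ range (M + 1), ‖∑ j ∈ range L, f (m + j) * c j‖ ≤ L * (M * L * (D * B + 1 / D)) :=
        mul_le_mul_of_nonneg_left hsum (Nat.cast_nonneg L)
    _ = M * (L : ℝ) ^ 2 * (D * B + 1 / D) := by ring

theorem mu_add_le (L e : ℕ) (hL : 1 ≤ L) (he : 0 < e) : L + e ≤ L * e + 1 := by
  obtain ⟨a, rfl⟩ : ∃ a, L = a + 1 := ⟨L - 1, by omega⟩
  obtain ⟨b, rfl⟩ : ∃ b, e = b + 1 := ⟨e - 1, by omega⟩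
  nlinarith [Nat.zero_le (a * b)]

theorem st_MU (hE : ST_EXP) (hV : ST_VEC) : ST_MU := by
  intro K θ₁ θ₂ hK hθ1 hθ12 hθ2
  obtain ⟨κ, hκ, L1, HE⟩ := hE K θ₁ θ₂ hK hθ1 hθ12 hθ2
  obtain ⟨C, hC, HV⟩ := hV
  have hK0 : 0 < K := by linarith
  obtain ⟨δ, hδ⟩ : ∃ δ : ℝ, δ = min κ (min 1 (1 / K)) / 40 := ⟨_, rfl⟩
  have hδ0 : 0 < δ := by
    rw [hδ]
    have : 0 < min κ (min 1 (1 / K)) := lt_min hκ (lt_min one_pos (by positivity))
    positivity
  have hδκ : 40 * δ ≤ κ := by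
    rw [hδ]
    have := min_le_left κ (min 1 (1 / K))
    linarith
  have hδ1 : 40 * δ ≤ 1 := by
    rw [hδ]
    have := (min_le_right κ (min 1 (1 / K))).trans (min_le_left _ _)
    linarith
  have hδK : 40 * δ ≤ 1 / K := by
    rw [hδ]
    have := (min_le_right κ (min 1 (1 / K))).trans (min_le_right _ _)
    linarith
  obtain ⟨R, hR⟩ : ∃ R : ℝ, R = max 4 (4 * Real.sqrt (2 * C) + 2) := ⟨_, rfl⟩
  have hR4 : 4 ≤ R := by
    rw [hR]
    exact le_max_left _ _
  have hRC : 4 * Real.sqrt (2 * C) + 2 ≤ R := by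
    rw [hR]
    exact le_max_right _ _
  have hev : ∀ᶠ L : ℕ in Filter.atTop, L1 ≤ (L : ℝ) ∧ R ≤ (L : ℝ) ^ (δ / 2) ∧ 4 * K ≤ Real.log L ∧ 2 ≤ L := by
    have t1 : Filter.Tendsto (fun L : ℕ => (L : ℝ)) Filter.atTop Filter.atTop := tendsto_natCast_atTop_atTop
    have t2 : Filter.Tendsto (fun L : ℕ => (L : ℝ) ^ (δ / 2)) Filter.atTop Filter.atTop :=
      (tendsto_rpow_atTop (by positivity)).comp t1
    have t3 : Filter.Tendsto (fun L : ℕ => Real.log L) Filter.atTop Filter.atTop := Real.tendsto_log_atTop.comp t1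
    exact (t1.eventually_ge_atTop L1).and ((t2.eventually_ge_atTop R).and
      ((t3.eventually_ge_atTop (4 * K)).and (Filter.eventually_ge_atTop 2)))
  obtain ⟨L0, hL0⟩ := Filter.eventually_atTop.1 hev
  refine ⟨δ / 2, by positivity, L0, fun L hL => ?_⟩
  obtain ⟨hL1, hLR, hLK, hL2⟩ := hL0 L hL
  obtain ⟨Z1, HZ⟩ := HE L hL1
  have hLpos : (0 : ℝ) < L := by
    have : 0 < L := by omega
    exact_mod_cast this
  have hLone : (1 : ℝ) ≤ L := by
    have : 1 ≤ L := by omega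
    exact_mod_cast this
  obtain ⟨l, hl⟩ : ∃ l : ℝ, l = (L : ℝ) ^ (δ / 2) := ⟨_, rfl⟩
  rw [← hl] at hLR
  have hl4 : 4 ≤ l := hR4.trans hLR
  have hlpow : ∀ n : ℕ, l ^ n = (L : ℝ) ^ ((n : ℝ) * (δ / 2)) := by
    intro n
    rw [hl, ← Real.rpow_natCast, ← Real.rpow_mul hLpos.le, mul_comm]
  -- D
  obtain ⟨D, hD⟩ : ∃ D : ℕ, D = ⌈l ^ 2⌉₊ := ⟨_, rfl⟩
  have hDl : l ^ 2 ≤ D := by
    rw [hD]
    exact Nat.le_ceil _
  have hDu : (D : ℝ) ≤ 2 * l ^ 2 := by
    rw [hD]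
    have := (Nat.ceil_lt_add_one (show 0 ≤ l ^ 2 by positivity)).le
    nlinarith
  have hD1 : 1 ≤ D := by
    have : (1 : ℝ) ≤ D := by nlinarith
    exact_mod_cast this
  have hDpos : (0 : ℝ) < D := by exact_mod_cast hD1
  have hD2 : (D : ℝ) ^ 2 ≤ l ^ 5 := by
    calc (D : ℝ) ^ 2 ≤ (2 * l ^ 2) ^ 2 := pow_le_pow_left₀ hDpos.le hDu 2
      _ = 4 * l ^ 4 := by ring
      _ ≤ l * l ^ 4 := mul_le_mul_of_nonneg_right hl4 (by positivity)
      _ = l ^ 5 := by ring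
  have hl1 : 1 ≤ l := by linarith
  -- y
  obtain ⟨y, hy⟩ : ∃ y : ℝ, y = Real.log L / (4 * K) := ⟨_, rfl⟩
  have hy1 : 1 ≤ y := by
    rw [hy, le_div_iff₀ (by positivity)]
    linarith
  have hDy : (D : ℝ) ≤ Real.exp y := by
    have h1 : l ^ 3 ≤ Real.exp y := by
      have h2 : Real.exp y = (L : ℝ) ^ (1 / (4 * K)) := by
        rw [Real.rpow_def_of_pos hLpos, hy]
        congr 1
        ring
      rw [h2, hlpow]
      refine Real.rpow_le_rpow_of_exponent_le hLone ?_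
      have h3 : 1 / (4 * K) = 1 / K / 4 := by field_simp
      rw [h3]
      push_cast
      linarith
    refine le_trans ?_ h1
    calc (D : ℝ) ≤ 2 * l ^ 2 := hDu
      _ ≤ l * l ^ 2 := mul_le_mul_of_nonneg_right (by linarith) (by positivity)
      _ = l ^ 3 := by ring
  have hL10 : (D : ℝ) ^ 2 ≤ (L : ℝ) ^ (1 / 10 : ℝ) := by
    refine hD2.trans ?_
    rw [hlpow]
    refine Real.rpow_le_rpow_of_exponent_le hLone ?_
    push_cast
    linarith
  have hDκ : (D : ℝ) ^ 2 * (L : ℝ) ^ (δ / 2) ≤ (L : ℝ) ^ κ := by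
    rw [← hl]
    calc (D : ℝ) ^ 2 * l ≤ l ^ 5 * l := mul_le_mul_of_nonneg_right hD2 (by linarith)
      _ = l ^ 6 := by ring
      _ ≤ (L : ℝ) ^ κ := by
          rw [hlpow]
          refine Real.rpow_le_rpow_of_exponent_le hLone ?_
          push_cast
          linarith
  -- E
  obtain ⟨E, hEdef⟩ : ∃ E : ℝ, E = (L : ℝ) ^ (-κ) := ⟨_, rfl⟩
  have hE4 : Real.sqrt (Real.sqrt E) ≤ 1 / l ^ 4 := by
    have h1 : E ≤ (1 / l ^ 4) ^ 4 := by
      have e1 : (1 / l ^ 4) ^ 4 = (l ^ 16)⁻¹ := by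
        rw [one_div, inv_pow, ← pow_mul]
      rw [e1, hlpow, hEdef, ← Real.rpow_neg hLpos.le]
      refine Real.rpow_le_rpow_of_exponent_le hLone ?_
      push_cast
      linarith
    have h2 : Real.sqrt E ≤ (1 / l ^ 4) ^ 2 := by
      rw [Real.sqrt_le_left (by positivity)]
      calc E ≤ (1 / l ^ 4) ^ 4 := h1
        _ = ((1 / l ^ 4) ^ 2) ^ 2 := by ring
    rw [Real.sqrt_le_left (by positivity)]
    exact h2
  have hfinal : 2 * (D * (Real.sqrt (2 * C) * Real.sqrt (Real.sqrt E)) + 1 / D) ≤ (L : ℝ) ^ (-(δ / 2)) := by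
    have h1 : (D : ℝ) * (Real.sqrt (2 * C) * Real.sqrt (Real.sqrt E)) ≤ (2 * l ^ 2) * (Real.sqrt (2 * C) * (1 / l ^ 4)) := by
      refine mul_le_mul hDu (mul_le_mul_of_nonneg_left hE4 (Real.sqrt_nonneg _)) (by positivity) (by positivity)
    have h2 : 1 / (D : ℝ) ≤ 1 / l ^ 2 := one_div_le_one_div_of_le (by positivity) hDl
    have h3 : (2 * l ^ 2) * (Real.sqrt (2 * C) * (1 / l ^ 4)) = 2 * Real.sqrt (2 * C) * (1 / l ^ 2) := by
      field_simp
    have h4 : (L : ℝ) ^ (-(δ / 2)) = 1 / l := by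
      rw [Real.rpow_neg hLpos.le, ← hl, one_div]
    rw [h4]
    have h5 : (4 * Real.sqrt (2 * C) + 2) * (1 / l ^ 2) ≤ 1 / l := by
      calc (4 * Real.sqrt (2 * C) + 2) * (1 / l ^ 2) ≤ l * (1 / l ^ 2) :=
            mul_le_mul_of_nonneg_right (hRC.trans hLR) (by positivity)
        _ = 1 / l := by field_simp
    rw [h3] at h1
    linarith
  refine ⟨max Z1 (max ((D : ℝ) ^ (1 / θ₁)) ((L + 2) * (L : ℝ) ^ κ)), fun Z X c hZ hX1 hX2 hc => ?_⟩
  have hZ1 : Z1 ≤ Z := (le_max_left _ _).trans hZ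
  have hZ2 : (D : ℝ) ^ (1 / θ₁) ≤ Z := ((le_max_left _ _).trans (le_max_right _ _)).trans hZ
  have hZ3 : (L + 2) * (L : ℝ) ^ κ ≤ Z := ((le_max_right _ _).trans (le_max_right _ _)).trans hZ
  have hLκ : 0 < (L : ℝ) ^ κ := Real.rpow_pos_of_pos hLpos _
  have hZpos : 0 < Z := lt_of_lt_of_le (by positivity) hZ3
  have hDZ : (D : ℝ) ≤ Z ^ θ₁ := by
    calc (D : ℝ) = ((D : ℝ) ^ (1 / θ₁)) ^ θ₁ := by
          rw [← Real.rpow_mul hDpos.le, one_div, inv_mul_cancel₀ hθ1.ne', Real.rpow_one]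
      _ ≤ Z ^ θ₁ := Real.rpow_le_rpow (by positivity) hZ2 hθ1.le
  have hZL : (L : ℝ) + 2 ≤ Z / (L : ℝ) ^ κ := by
    rw [le_div_iff₀ hLκ]
    exact hZ3
  -- the size of X / d ^ 2
  have hXd : ∀ d : ℕ, 1 ≤ d → d ≤ D → Z / (L : ℝ) ^ κ ≤ X / ((d : ℝ) ^ 2) := by
    intro d hd1 hd2
    have hd0 : (0 : ℝ) < d := by exact_mod_cast hd1
    have hdD : (d : ℝ) ≤ D := by exact_mod_cast hd2
    have h1 : (d : ℝ) ^ 2 ≤ (D : ℝ) ^ 2 := pow_le_pow_left₀ hd0.le hdD 2
    rw [div_le_div_iff₀ hLκ (by positivity)]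
    have h2 : Z ≤ X * (L : ℝ) ^ (δ / 2) := by
      rwa [div_le_iff₀ (Real.rpow_pos_of_pos hLpos _)] at hX1
    have hX0 : 0 ≤ X := by
      refine le_trans ?_ hX1
      positivity
    calc Z * (d : ℝ) ^ 2 ≤ (X * (L : ℝ) ^ (δ / 2)) * (D : ℝ) ^ 2 := mul_le_mul h2 h1 (by positivity) (by positivity)
      _ = X * ((D : ℝ) ^ 2 * (L : ℝ) ^ (δ / 2)) := by ring
      _ ≤ X * (L : ℝ) ^ κ := mul_le_mul_of_nonneg_left hDκ hX0
  have hX1' : Z / (L : ℝ) ^ κ ≤ X := by
    have := hXd 1 le_rfl hD1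
    simpa using this
  have hXL : (L : ℝ) + 2 ≤ X := hZL.trans hX1'
  have hX0 : 0 < X := by linarith
  obtain ⟨M, hM⟩ : ∃ M : ℕ, M = ⌊2 * X⌋₊ := ⟨_, rfl⟩
  have hM2X : (M : ℝ) ≤ 2 * X := by
    rw [hM]
    exact Nat.floor_le (by positivity)
  have hXM : X ≤ M := by
    have := Nat.lt_floor_add_one (2 * X)
    rw [← hM] at this
    linarith
  have hDL : (D : ℝ) ≤ L := by
    have h1 : (D : ℝ) ≤ (D : ℝ) ^ 2 := by
      have : (1 : ℝ) ≤ D := by exact_mod_cast hD1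
      nlinarith
    refine h1.trans (hL10.trans ?_)
    calc (L : ℝ) ^ (1 / 10 : ℝ) ≤ (L : ℝ) ^ (1 : ℝ) := Real.rpow_le_rpow_of_exponent_le hLone (by norm_num)
      _ = L := Real.rpow_one _
  have hDM : D ≤ M := by
    have : (D : ℝ) ≤ M := by linarith
    exact_mod_cast this
  obtain ⟨S, hS⟩ : ∃ S : ℕ → Prop, S = fun n : ℕ => X < n ∧ (n : ℝ) ≤ 2 * X ∧ SS K (Real.log L / (4 * K)) θ₁ θ₂ Z n :=
    ⟨_, rfl⟩
  rw [← hM, ← hS]
  have hSM : ∀ n, n ∉ Icc 1 M → ¬ S n := by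
    intro n hn h
    rw [hS] at h
    apply hn
    rw [Finset.mem_Icc]
    constructor
    · have : (0 : ℝ) < n := by linarith [h.1]
      exact_mod_cast this
    · rw [hM]
      exact Nat.le_floor h.2.1
  have hF0 : ∀ n, n ∉ Icc 1 M → res S lam n = 0 := by
    intro n hn
    unfold res
    rw [if_neg (hSM n hn)]
  have hF1 : ∀ n, ‖res S lam n‖ ≤ 1 := by
    intro n
    unfold res
    split_ifs
    · exact mu_lam_norm n
    · simp
  have hf1 : ∀ n, ‖res S (fun n => (ArithmeticFunction.moebius n : ℂ)) n‖ ≤ 1 := by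
    intro n
    unfold res
    split_ifs
    · rw [Complex.norm_intCast]
      exact_mod_cast ArithmeticFunction.abs_moebius_le_one
    · simp
  have hf : ∀ n, res S (fun n => (ArithmeticFunction.moebius n : ℂ)) n
      = ∑ d ∈ Icc 1 M, ((ArithmeticFunction.moebius d : ℤ) : ℂ) * (if d ^ 2 ∣ n then res S lam n else 0) := by
    intro n
    by_cases hn : n ∈ Icc 1 M
    · have hn' := Finset.mem_Icc.1 hn
      by_cases hs : S n
      · have h1 := mu_dec n M hn'.1 hn'.2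
        unfold res
        simp only [if_pos hs]
        exact h1
      · unfold res
        simp only [if_neg hs]
        simp
    · rw [hF0 n hn]
      unfold res
      rw [if_neg (hSM n hn)]
      simp
  have hcomb := mu_comb (B := Real.sqrt (2 * C) * Real.sqrt (Real.sqrt E)) L M D hD1 hDM
    (res S (fun n => (ArithmeticFunction.moebius n : ℂ))) (res S lam) c hc hf1 hF1 hF0 hf ?_
  · refine hcomb.trans ?_
    have h0 : 0 ≤ D * (Real.sqrt (2 * C) * Real.sqrt (Real.sqrt E)) + 1 / (D : ℝ) := by positivity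
    calc M * (L : ℝ) ^ 2 * (D * (Real.sqrt (2 * C) * Real.sqrt (Real.sqrt E)) + 1 / D)
        ≤ (2 * X) * (L : ℝ) ^ 2 * (D * (Real.sqrt (2 * C) * Real.sqrt (Real.sqrt E)) + 1 / D) := by
          refine mul_le_mul_of_nonneg_right (mul_le_mul_of_nonneg_right hM2X (by positivity)) h0
      _ = X * (L : ℝ) ^ 2 * (2 * (D * (Real.sqrt (2 * C) * Real.sqrt (Real.sqrt E)) + 1 / D)) := by ring
      _ ≤ X * (L : ℝ) ^ 2 * (L : ℝ) ^ (-(δ / 2)) := mul_le_mul_of_nonneg_left hfinal (by positivity)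
      _ = X * (L : ℝ) ^ (2 - δ / 2) := by
          rw [mul_assoc, sub_eq_add_neg, Real.rpow_add hLpos]
          congr 2
          exact_mod_cast (Real.rpow_natCast (L : ℝ) 2).symm
  · -- one d
    intro d hd
    rw [Finset.mem_Icc] at hd
    have hd0 : (0 : ℝ) < d := by exact_mod_cast hd.1
    have hdD : (d : ℝ) ≤ D := by exact_mod_cast hd.2
    have hdD2 : (d : ℝ) ^ 2 ≤ (D : ℝ) ^ 2 := pow_le_pow_left₀ hd0.le hdD 2
    obtain ⟨X', hX'⟩ : ∃ X' : ℝ, X' = X / ((d : ℝ) ^ 2) := ⟨_, rfl⟩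
    have hX'1 : Z / (L : ℝ) ^ κ ≤ X' := by
      rw [hX']
      exact hXd d hd.1 hd.2
    have hX'L : (L : ℝ) + 2 ≤ X' := hZL.trans hX'1
    have hd1R : (1 : ℝ) ≤ (d : ℝ) ^ 2 := one_le_pow₀ (by exact_mod_cast hd.1)
    have hX'Z : X' ≤ Z := by
      rw [hX']
      exact (div_le_self hX0.le hd1R).trans hX2
    obtain ⟨e, he⟩ : ∃ e : ℕ, e = d ^ 2 := ⟨_, rfl⟩
    have heR : (e : ℝ) = (d : ℝ) ^ 2 := by rw [he]; push_cast; ring
    have he0 : 0 < e := by
      rw [he]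
      exact pow_pos hd.1 2
    obtain ⟨N, hN⟩ : ∃ N : ℕ, N = M / e := ⟨_, rfl⟩
    have hN2 : N = ⌊2 * X'⌋₊ := by
      rw [hN, hM, ← Nat.floor_div_natCast, hX', heR]
      congr 1
      ring
    have hNX : X' ≤ N := by
      have := Nat.lt_floor_add_one (2 * X')
      rw [← hN2] at this
      linarith
    obtain ⟨Ld, hLd⟩ : ∃ Ld : ℕ, Ld = (L + e - 2) / e + 1 := ⟨_, rfl⟩
    have hLdL : Ld ≤ L := by
      rw [hLd]
      refine Nat.succ_le_of_lt ((Nat.div_lt_iff_lt_mul he0).2 ?_)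
      have h1 : L + e ≤ L * e + 1 := mu_add_le L e (by omega) he0
      omega
    have heLd : L ≤ e * Ld := by
      rw [hLd]
      have h1 := Nat.lt_mul_div_succ (L + e - 2) he0
      omega
    have hLdlow : (L : ℝ) ^ (9 / 10 : ℝ) ≤ Ld := by
      have h1 : (L : ℝ) ≤ e * Ld := by exact_mod_cast heLd
      have h2 : (L : ℝ) ^ (9 / 10 : ℝ) * (L : ℝ) ^ (1 / 10 : ℝ) = L := by
        rw [← Real.rpow_add hLpos]
        norm_num
      have h3 : 0 < (L : ℝ) ^ (1 / 10 : ℝ) := Real.rpow_pos_of_pos hLpos _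
      have h4 : (e : ℝ) * Ld ≤ (L : ℝ) ^ (1 / 10 : ℝ) * Ld := by
        refine mul_le_mul_of_nonneg_right ?_ (Nat.cast_nonneg _)
        rw [heR]
        exact hdD2.trans hL10
      have h5 : (L : ℝ) ^ (9 / 10 : ℝ) * (L : ℝ) ^ (1 / 10 : ℝ) ≤ Ld * (L : ℝ) ^ (1 / 10 : ℝ) := by
        rw [h2, mul_comm (Ld : ℝ)]
        exact h1.trans h4
      exact le_of_mul_le_mul_right h5 h3
    have hLd1 : 1 ≤ Ld := by
      rw [hLd]
      exact Nat.le_add_left 1 _
    have hLdLR : (Ld : ℝ) ≤ L := by exact_mod_cast hLdL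
    have hLdN : Ld ≤ N := by
      have : (Ld : ℝ) ≤ N := by linarith
      exact_mod_cast this
    obtain ⟨a, ha⟩ : ∃ a : ℕ → ℂ, a = res (fun n : ℕ => X' < n ∧ (n : ℝ) ≤ 2 * X' ∧
        SS K (Real.log L / (4 * K)) θ₁ θ₂ Z n) lam := ⟨_, rfl⟩
    have ha1 : ∀ n, ‖a n‖ ≤ 1 := by
      intro n
      rw [ha]
      unfold res
      split_ifs
      · exact mu_lam_norm n
      · simp
    have ha2 : ∀ n, N < n → a n = 0 := by
      intro n hn
      rw [ha]
      unfold res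
      rw [if_neg]
      rintro ⟨_, h, _⟩
      have := Nat.le_floor h
      rw [← hN2] at this
      omega
    have ha3 : ∀ n, n ≤ Ld → a n = 0 := by
      intro n hn
      rw [ha]
      unfold res
      rw [if_neg]
      rintro ⟨h, _, _⟩
      have h2 : (n : ℝ) ≤ Ld := by exact_mod_cast hn
      linarith
    have hFa : ∀ k, res S lam (e * k) = a k := by
      intro k
      rcases Nat.eq_zero_or_pos k with hk | hk
      · rw [hk, mul_zero, hF0 0 (by simp), ha3 0 (by omega)]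
      · rw [ha]
        unfold res
        have hdy : (d : ℝ) ≤ Real.exp (Real.log L / (4 * K)) := by
          rw [← hy]
          exact hdD.trans hDy
        have h1 : S (e * k) ↔ (X' < k ∧ (k : ℝ) ≤ 2 * X' ∧ SS K (Real.log L / (4 * K)) θ₁ θ₂ Z k) := by
          rw [hS, hX']
          simp only
          rw [he, mu_SS K (Real.log L / (4 * K)) θ₁ θ₂ Z d k hd.1 (by rw [← hy]; exact hy1) hdy (hdD.trans hDZ)]
          have hd20 : (0 : ℝ) < (d : ℝ) ^ 2 := by positivity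
          have e1 : (X < ((d ^ 2 * k : ℕ) : ℝ)) ↔ X / (d : ℝ) ^ 2 < k := by
            rw [div_lt_iff₀ hd20]
            push_cast
            rw [mul_comm]
          have e2 : (((d ^ 2 * k : ℕ) : ℝ) ≤ 2 * X) ↔ (k : ℝ) ≤ 2 * (X / (d : ℝ) ^ 2) := by
            rw [← mul_div_assoc, le_div_iff₀ hd20]
            push_cast
            rw [mul_comm]
          rw [e1, e2]
        by_cases h : S (e * k)
        · rw [if_pos h, if_pos (h1.1 h), he]
          exact mu_lam_sq d k (by omega) hk.ne'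
        · rw [if_neg h, if_neg (fun h' => h (h1.2 h'))]
    have hexp : ∀ θ : ℝ, ∑ m ∈ range (N + 1), ‖∑ j ∈ range Ld, a (m + j) * ee (j * θ)‖ ≤ N * Ld * E := by
      intro θ
      have h1 := HZ Z X' Ld θ hZ1 hX'1 hX'Z hLdlow hLdLR
      rw [← hN2, ← ha, ← hEdef] at h1
      refine h1.trans ?_
      have hE0 : 0 ≤ E := by
        rw [hEdef]
        positivity
      have h2 : X' * Ld ≤ N * Ld := mul_le_mul_of_nonneg_right hNX (Nat.cast_nonneg _)
      exact mul_le_mul_of_nonneg_right h2 hE0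
    have hvec := HV N Ld a E hLd1 hLdN ha1 ha2 ha3 hexp
    have hone := mu_one (E := E) hC e L M N Ld he0 (by omega) hN (by omega) hLd hLdL a (res S lam) hFa hvec c hc
    rw [← he]
    exact hone

end Pool.Agent.Helper40.MR
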